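import Pool.Agent.R598.PM.TopDefs

/-!
# P-spaces in a transitive model of ZF: definitions
-/

set_option autoImplicit false

namespace Pool.Agent.R602.PP

open Pool.Agent.W868 Pool.Agent.R598.PM
open ZFSet (pair)

/-- In the model `M`, the set `C` is countable: `M` has an injection of `C` into `ω`. -/
def CountIn (M : Set ZFSet.{0}) (C : ZFSet.{0}) : Prop := ∃ f ∈ M, IsInj C ZFSet.omega f

/-- In the model `M`, the topological space `(X, τ)` is a P-space: each intersection of a nonempty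
countable family `C` of open sets is a neighbourhood of each of its points. -/
def IsPSpace (M : Set ZFSet.{0}) (X τ : ZFSet.{0}) : Prop :=
  IsTop M X τ ∧ ∀ C ∈ M, C ≠ ∅ → C ⊆ τ → CountIn M C → ∀ x ∈ X, (∀ U ∈ C, x ∈ U) →
    ∃ V ∈ τ, x ∈ V ∧ ∀ U ∈ C, V ⊆ U

/-- In the model `M`, the set `ρ` is the product topology on `X × Y` of the topologies `τ` on `X`
and `σ` on `Y`. -/
def IsProdTop (M : Set ZFSet.{0}) (X τ Y σ ρ : ZFSet.{0}) : Prop :=
  ∀ W, W ∈ ρ ↔ W ∈ M ∧ W ⊆ ZFSet.prod X Y ∧ ∀ x y, pair x y ∈ W →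
    ∃ U ∈ τ, ∃ V ∈ σ, x ∈ U ∧ y ∈ V ∧ ZFSet.prod U V ⊆ W

/-- The statement PPP in the model `M`: the product of two P-spaces is a P-space. -/
def PPP (M : Set ZFSet.{0}) : Prop :=
  ∀ X ∈ M, ∀ τ ∈ M, ∀ Y ∈ M, ∀ σ ∈ M, ∀ ρ ∈ M, IsPSpace M X τ → IsPSpace M Y σ →
    IsProdTop M X τ Y σ ρ → IsPSpace M (ZFSet.prod X Y) ρ

end Pool.Agent.R602.PP
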