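import Pool.Agent.R602.PP.Model
import Pool.Agent.R602.CO.Model

/-!
# The model with a sequence of dense linear orders contains the order of the rational numbers
-/

set_option autoImplicit false

namespace Pool.Agent.R602.PP

open Pool.Agent.W868 Pool.Agent.W868.PName Pool.Agent.R598.SY Pool.Agent.R598.PM
open Pool.Agent.R602.CO (ltQ mem_ltQ code)
open ZFSet (pair)

theorem hat_ltQ {P : Type} [Preorder P] [OrderTop P] (π : Pkg P) : π.hat ltQ = ltQ := by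
  have h1 : ∀ p q : ℚ, pair (code p) (code q) ∈ π.Z :=
    fun p q => π.pair_mem_Z (π.nat_Z _) (π.nat_Z _)
  have h2 : ∀ p q : ℚ, π.hat (pair (code p) (code q)) = pair (code p) (code q) := by
    intro p q
    unfold code
    rw [π.hat_pair (π.nat_Z _) (π.nat_Z _), π.hat_nat, π.hat_nat]
  ext z
  rw [π.mem_hat]
  constructor
  · rintro ⟨y, hy, -, rfl⟩
    obtain ⟨p, q, h, rfl⟩ := mem_ltQ.1 hy
    rw [h2]
    exact hy
  · intro hz
    obtain ⟨p, q, h, rfl⟩ := mem_ltQ.1 hz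
    exact ⟨_, hz, h1 p q, h2 p q⟩

theorem exists_model2 : ∃ M : Set ZFSet.{0}, M.Countable ∧ ltQ ∈ M ∧
    ∃ b A K L, IsPP M b A K L := by
  classical
  obtain ⟨π, hX, -, hcl⟩ := exists_pkg (sys DD).rules (Set.Finite.countable (by
    unfold Sys.rules
    exact Set.toFinite _)) ({aN, kN, lN, check ltQ} ∪ Set.range bN)
    ((Set.toFinite _).countable.union (Set.countable_range _)) ⊤
  have hCld : (sys DD).Cld π := fun ρ hρ => hcl ρ hρ
  have hM : IsZF ((sys DD).Ms π) := T_ZF.main T_TRU.main T_SEP.main _ _ π hCld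
  have hb : ∀ i, bN i ∈ π.N := fun i => hX (Or.inr ⟨i, rfl⟩)
  have ha : aN ∈ π.N := hX (Or.inl (Or.inl rfl))
  have hk : kN ∈ π.N := hX (Or.inl (Or.inr (Or.inl rfl)))
  have hl : lN ∈ π.N := hX (Or.inl (Or.inr (Or.inr (Or.inl rfl))))
  have hlt : check ltQ ∈ π.N := hX (Or.inl (Or.inr (Or.inr (Or.inr rfl))))
  have hc : ∀ n, check (nat n) ∈ π.N := fun n => π.nat_Z n
  have hc' : ∀ n, π.val (check (nat n)) = nat n := fun n => π.hat_nat n
  refine ⟨(sys DD).Ms π, (π.cnt.mono fun _ h => h.1).image _, ?_, fun i => π.val (bN i), π.val aN,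
    π.val kN, π.val lN, hM, fun i => ⟨_, ⟨hb i, hs_bN i⟩, rfl⟩, fun i j hij => ?_,
    ⟨_, ⟨ha, hs_aN⟩, rfl⟩, fun z => val_famN hb, ⟨_, ⟨hk, hs_kN⟩, rfl⟩, fun z => ?_,
    ⟨_, ⟨hl, hs_lN⟩, rfl⟩, fun z => ?_, fun S hS => ?_, fun S hS => ?_⟩
  · have h1 : π.val (check ltQ) ∈ (sys DD).Ms π := ⟨_, ⟨hlt, (sys DD).hs_check _⟩, rfl⟩
    have h2 : π.val (check ltQ) = ltQ := hat_ltQ π
    rwa [h2] at h1
  · by_contra hne
    obtain ⟨n, hn⟩ := (π.val_eq_iff (hb i) (hb j)).1 hij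
    exact not_feq_bN hne _ hn
  · unfold kN
    rw [val_famN fun i => π.opN_mem (hc _) (hb i)]
    refine exists_congr fun i => ?_
    rw [π.val_opN (hc _) (hb i), hc']
  · unfold lN
    rw [val_famN fun t => π.opN_mem (hb _) (hb _)]
    constructor
    · rintro ⟨⟨⟨i, j⟩, h1, h2⟩, rfl⟩
      exact ⟨i, j, h1, h2, π.val_opN (hb _) (hb _)⟩
    · rintro ⟨i, j, h1, h2, rfl⟩
      exact ⟨⟨⟨i, j⟩, h1, h2⟩, (π.val_opN (hb _) (hb _)).symm⟩
  · obtain ⟨t, ht, rfl, E, hE⟩ := exists_supp hS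
    refine ⟨E.image Prod.fst, fun τ hτ hfix i hi => ?_⟩
    exact move ht (hb _) (hb _) hE hτ (Subgroup.mem_top _)
      (fun a ha => hfix _ (Finset.mem_image_of_mem _ ha)) (fun ρ hρ p => act_bN hρ i p) hi
  · obtain ⟨t, ht, rfl, E, hE⟩ := exists_supp hS
    refine ⟨E.image Prod.fst, fun τ hτ hfix n i hi => ?_⟩
    rw [← hc' n, ← π.val_opN (hc n) (hb _)] at hi ⊢
    refine move ht (π.opN_mem (hc n) (hb _)) (π.opN_mem (hc n) (hb _)) hE hτ (Subgroup.mem_top _)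
      (fun a ha => hfix _ (Finset.mem_image_of_mem _ ha)) (fun ρ hρ p => ?_) hi
    rw [act_opN ((sys DD).top ρ), act_check ((sys DD).top ρ)]
    exact feq_opN (Feq.refl _ _) (act_bN hρ i p)

end Pool.Agent.R602.PP
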