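import Pool.Agent.R602.PP.Model
import Pool.Agent.R602.PP.Defs

/-!
# Two P-spaces whose product is not a P-space
-/

set_option autoImplicit false

namespace Pool.Agent.R602.PP

open Pool.Agent.W868 Pool.Agent.R598.PM
open ZFSet (pair)

/-- The order of `ℚ` or its reverse. -/
def ltS (s : Bool) (x y : ℚ) : Prop := if s then x < y else y < x

theorem ltS_true {x y : ℚ} : ltS true x y ↔ x < y := by simp [ltS]

theorem ltS_false {x y : ℚ} : ltS false x y ↔ y < x := by simp [ltS]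

theorem ltS_below (s : Bool) (x y : ℚ) : ∃ r, ltS s r x ∧ ltS s r y := by
  cases s
  · refine ⟨max x y + 1, ltS_false.2 ?_, ltS_false.2 ?_⟩
    · exact (le_max_left x y).trans_lt (lt_add_one _)
    · exact (le_max_right x y).trans_lt (lt_add_one _)
  · refine ⟨min x y - 1, ltS_true.2 ?_, ltS_true.2 ?_⟩
    · exact (sub_one_lt _).trans_le (min_le_left x y)
    · exact (sub_one_lt _).trans_le (min_le_right x y)

theorem ltS_trans {s : Bool} {x y z : ℚ} (h : ltS s x y) (h' : ltS s y z) : ltS s x z := by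
  cases s
  · rw [ltS_false] at *
    exact h'.trans h
  · rw [ltS_true] at *
    exact h.trans h'

/-- Moving points near the end. -/
theorem exists_perm (s : Bool) (E : Finset (ℕ × ℚ)) (n : ℕ) : ∃ q : ℚ, ∀ r r', ltS s r q →
    ltS s r' q → ∃ τ ∈ Tg, (∀ i ∈ E, τ i = i) ∧ τ (n, r') = (n, r) := by
  cases s
  · obtain ⟨q, hq⟩ := (E.finite_toSet.image Prod.snd).bddAbove
    refine ⟨q, fun r r' h h' => ?_⟩
    rw [ltS_false] at h h'
    have hc : 0 < (r - q) / (r' - q) := div_pos (sub_pos.2 h) (sub_pos.2 h')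
    refine ⟨onB n (highE q _ hc), onB_mem n (highE_mono hc), ?_, ?_⟩
    · rintro ⟨m, t⟩ hi
      by_cases hm : m = n
      · subst hm
        rw [onB_same, highE_low hc (hq ⟨_, hi, rfl⟩)]
      · rw [onB_ne hm]
    · rw [onB_same, highE_high hc h', div_mul_cancel₀ _ (sub_pos.2 h').ne']
      congr 1
      ring
  · obtain ⟨q, hq⟩ := (E.finite_toSet.image Prod.snd).bddBelow
    refine ⟨q, fun r r' h h' => ?_⟩
    rw [ltS_true] at h h'
    have hc : 0 < (r - q) / (r' - q) := div_pos_of_neg_of_neg (sub_neg.2 h) (sub_neg.2 h')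
    refine ⟨onB n (lowE q _ hc), onB_mem n (lowE_mono hc), ?_, ?_⟩
    · rintro ⟨m, t⟩ hi
      by_cases hm : m = n
      · subst hm
        rw [onB_same, lowE_high hc (hq ⟨_, hi, rfl⟩)]
      · rw [onB_ne hm]
    · rw [onB_same, lowE_low hc h', div_mul_cancel₀ _ (sub_neg.2 h').ne]
      congr 1
      ring

/-- Moving points in a block off the support. -/
theorem exists_shift (E : Finset (ℕ × ℚ)) (n : ℕ) (hn : ∀ i ∈ E, i.1 ≠ n) (r r' : ℚ) :
    ∃ τ ∈ Tg, (∀ i ∈ E, τ i = i) ∧ τ (n, r') = (n, r) := by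
  refine ⟨onB n (Equiv.addRight (r - r')), onB_mem n fun x y h => ?_, ?_, ?_⟩
  · simpa using h
  · rintro ⟨m, t⟩ hi
    exact onB_ne (hn _ hi) _ _
  · rw [onB_same]
    congr 1
    simp

section

variable {M : Set ZFSet.{0}} {b : ℕ × ℚ → ZFSet.{0}} {A K L : ZFSet.{0}} (h : IsPP M b A K L)

include h

theorem pair_K {n : ℕ} {i : ℕ × ℚ} : pair (nat n) (b i) ∈ K ↔ i.1 = n := by
  rw [h.mem_K]
  constructor
  · rintro ⟨j, hj⟩
    obtain ⟨h1, h2⟩ := ZFSet.pair_inj.1 hj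
    rw [h.b_inj _ _ h2]
    exact (nat_injective h1).symm
  · rintro rfl
    exact ⟨i, rfl⟩

theorem A_ne (i : ℕ × ℚ) : A ≠ b i := by
  intro h1
  have h2 : b i ∈ A := (h.mem_A _).2 ⟨i, rfl⟩
  rw [← h1] at h2
  exact ZFSet.mem_irrefl _ h2

theorem not_K_A (n : ZFSet.{0}) : pair n A ∉ K := by
  intro h1
  obtain ⟨i, hi⟩ := (h.mem_K _).1 h1
  exact A_ne h i (ZFSet.pair_inj.1 hi).2

/-- The relation of the order or the reverse order. -/
def IsL (b : ℕ × ℚ → ZFSet.{0}) (s : Bool) (L' : ZFSet.{0}) : Prop :=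
  ∀ i j : ℕ × ℚ, pair (b i) (b j) ∈ L' ↔ i.1 = j.1 ∧ ltS s i.2 j.2

theorem isL_true : IsL b true L := by
  intro i j
  rw [h.mem_L, ltS_true]
  constructor
  · rintro ⟨i', j', h1, h2, h3⟩
    obtain ⟨h4, h5⟩ := ZFSet.pair_inj.1 h3
    rw [h.b_inj _ _ h4, h.b_inj _ _ h5]
    exact ⟨h1, h2⟩
  · rintro ⟨h1, h2⟩
    exact ⟨i, j, h1, h2, rfl⟩

theorem exists_L_false : ∃ L' ∈ M, IsL b false L' := by
  have hM := h.zf
  have hB := hM.base
  have hL := h.L_mem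
  obtain ⟨L', hL', -, h1⟩ := hM.rel_mem h.A_mem h.A_mem (Q := fun x y => pair y x ∈ L) (by
    (repeat' first
      | assumption
      | exact DfnF.proj _
      | exact DfnF.const (by assumption)
      | apply Dfn.mem | apply hB.pair'))
  refine ⟨L', hL', fun i j => ?_⟩
  rw [h1, isL_true h, ltS_true, ltS_false]
  constructor
  · rintro ⟨-, -, h2, h3⟩
    exact ⟨h2.symm, h3⟩
  · rintro ⟨h2, h3⟩
    exact ⟨(h.mem_A _).2 ⟨i, rfl⟩, (h.mem_A _).2 ⟨j, rfl⟩, h2.symm, h3⟩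

/-- `U` is a neighbourhood of the point `A`, if it contains it. -/
def Nb (A K L' U : ZFSet.{0}) : Prop :=
  A ∈ U → ∀ n ∈ ZFSet.omega, ∃ q ∈ A, pair n q ∈ K ∧ ∀ a ∈ A, pair a q ∈ L' → a ∈ U

theorem exists_top {s : Bool} {L' : ZFSet.{0}} (hL' : L' ∈ M) (hs : IsL b s L') :
    ∃ τ ∈ M, (∀ U, U ∈ τ ↔ U ∈ M ∧ U ⊆ insert A A ∧ Nb A K L' U) ∧ IsPSpace M (insert A A) τ := by
  have hM := h.zf
  have hB := hM.base
  have hA := h.A_mem
  have hK := h.K_mem
  have hom := hM.infinity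
  have hX : insert A A ∈ M := hM.insert_mem hA hA
  obtain ⟨Pw, hPw, hPw'⟩ := hM.power _ hX
  have hτ := hM.sep_mem (Q := fun U => Nb A K L' U) (by
    unfold Nb
    (repeat' first
      | assumption
      | exact DfnF.proj _
      | exact DfnF.const (by assumption)
      | apply Dfn.not | apply Dfn.and | apply Dfn.or | apply Dfn.imp | apply Dfn.iff
      | apply hB.bex | apply hB.ball | apply Dfn.ex | apply Dfn.all
      | apply Dfn.eq | apply Dfn.mem | apply hB.pair')) hPw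
  have hτ' : ∀ U, U ∈ ZFSet.sep (fun U => Nb A K L' U) Pw ↔ U ∈ M ∧ U ⊆ insert A A ∧
      Nb A K L' U := by
    intro U
    rw [ZFSet.mem_sep, hPw', and_assoc]
  set τ := ZFSet.sep (fun U => Nb A K L' U) Pw with hτdef
  have hAX : A ∈ (insert A A : ZFSet.{0}) := ZFSet.mem_insert_iff.2 (Or.inl rfl)
  have hbX : ∀ i, b i ∈ (insert A A : ZFSet.{0}) := fun i =>
    ZFSet.mem_insert_iff.2 (Or.inr ((h.mem_A _).2 ⟨i, rfl⟩))
  have hXc : ∀ x ∈ (insert A A : ZFSet.{0}), x = A ∨ ∃ i, x = b i := by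
    intro x hx
    rcases ZFSet.mem_insert_iff.1 hx with h1 | h1
    · exact Or.inl h1
    · exact Or.inr ((h.mem_A _).1 h1)
  -- the neighbourhoods in terms of the index
  have hNb : ∀ U, Nb A K L' U ↔ (A ∈ U → ∀ n : ℕ, ∃ q : ℚ, ∀ r, ltS s r q → b (n, r) ∈ U) := by
    intro U
    refine imp_congr_right fun _ => ?_
    constructor
    · intro h1 n
      obtain ⟨q, hq, h2, h3⟩ := h1 (nat n) (mem_omega_iff.2 ⟨n, rfl⟩)
      obtain ⟨⟨m, q⟩, rfl⟩ := (h.mem_A _).1 hq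
      have h4 : m = n := (pair_K h).1 h2
      subst h4
      exact ⟨q, fun r hr => h3 _ ((h.mem_A _).2 ⟨_, rfl⟩) ((hs _ _).2 ⟨rfl, hr⟩)⟩
    · intro h1 n hn
      obtain ⟨n, rfl⟩ := mem_omega_iff.1 hn
      obtain ⟨q, hq⟩ := h1 n
      refine ⟨b (n, q), (h.mem_A _).2 ⟨_, rfl⟩, (pair_K h).2 rfl, fun a ha haq => ?_⟩
      obtain ⟨⟨m, r⟩, rfl⟩ := (h.mem_A _).1 ha
      obtain ⟨h2, h3⟩ := (hs _ _).1 haq
      have h4 : m = n := h2
      subst h4
      exact hq r h3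
  refine ⟨τ, hτ, hτ', ⟨fun O hO => ((hτ' O).1 hO).2.1, ?_, ?_, ?_, ?_⟩, ?_⟩
  · exact (hτ' _).2 ⟨hM.empty_mem, fun z hz => absurd hz (ZFSet.notMem_empty _),
      fun h1 => absurd h1 (ZFSet.notMem_empty _)⟩
  · refine (hτ' _).2 ⟨hX, fun z hz => hz, (hNb _).2 fun _ n => ⟨0, fun r _ => hbX _⟩⟩
  · intro U hU V hV
    obtain ⟨h1, h2, h3⟩ := (hτ' U).1 hU
    obtain ⟨h4, h5, h6⟩ := (hτ' V).1 hV
    have h7 := hM.sep_mem (Q := fun z => z ∈ V) (by
      (repeat' first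
        | assumption
        | exact DfnF.proj _
        | exact DfnF.const (by assumption)
        | apply Dfn.mem)) h1
    have h8 : ZFSet.sep (fun z => z ∈ V) U = U ∩ V := by
      ext z
      rw [ZFSet.mem_sep, ZFSet.mem_inter]
    rw [h8] at h7
    refine (hτ' _).2 ⟨h7, fun z hz => h2 (ZFSet.mem_inter.1 hz).1, (hNb _).2 fun hA n => ?_⟩
    obtain ⟨h9, h10⟩ := ZFSet.mem_inter.1 hA
    obtain ⟨q, hq⟩ := (hNb U).1 h3 h9 n
    obtain ⟨q', hq'⟩ := (hNb V).1 h6 h10 n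
    obtain ⟨r, hr1, hr2⟩ := ltS_below s q q'
    exact ⟨r, fun t ht => ZFSet.mem_inter.2 ⟨hq t (ltS_trans ht hr1), hq' t (ltS_trans ht hr2)⟩⟩
  · intro C hC hCτ
    refine (hτ' _).2 ⟨hM.union _ hC, fun z hz => ?_, (hNb _).2 fun hA n => ?_⟩
    · obtain ⟨U, hU, hzU⟩ := ZFSet.mem_sUnion.1 hz
      exact ((hτ' U).1 (hCτ hU)).2.1 hzU
    · obtain ⟨U, hU, hAU⟩ := ZFSet.mem_sUnion.1 hA
      obtain ⟨q, hq⟩ := (hNb U).1 ((hτ' U).1 (hCτ hU)).2.2 hAU n
      exact ⟨q, fun r hr => ZFSet.mem_sUnion.2 ⟨U, hU, hq r hr⟩⟩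
  · intro C hC _ hCτ hcount x hx hxC
    obtain ⟨f, hf, ⟨hf1, hf2⟩, hf3⟩ := hcount
    rcases hXc x hx with rfl | ⟨i, rfl⟩
    · have hV := hM.sep_mem (Q := fun z => ∀ U ∈ C, z ∈ U) (by
        (repeat' first
          | assumption
          | exact DfnF.proj _
          | exact DfnF.const (by assumption)
          | apply hB.ball | apply Dfn.mem)) hX
      refine ⟨_, (hτ' _).2 ⟨hV, fun z hz => (ZFSet.mem_sep.1 hz).1, (hNb _).2 fun _ n => ?_⟩,
        ZFSet.mem_sep.2 ⟨hx, hxC⟩, fun U hU z hz => (ZFSet.mem_sep.1 hz).2 U hU⟩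
      obtain ⟨S, hS, -, hS'⟩ := hM.rel_mem hom hA
        (Q := fun k a => ∀ U ∈ C, pair U k ∈ f → a ∈ U) (by
        (repeat' first
          | assumption
          | exact DfnF.proj _
          | exact DfnF.const (by assumption)
          | apply hB.ball | apply Dfn.imp | apply Dfn.mem | apply hB.pair'))
      obtain ⟨E, hE⟩ := h.supp' S hS
      obtain ⟨q, hq⟩ := exists_perm s E n
      refine ⟨q, fun r hr => ZFSet.mem_sep.2 ⟨hbX _, fun U hU => ?_⟩⟩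
      obtain ⟨t, ht⟩ := (hNb U).1 ((hτ' U).1 (hCτ hU)).2.2 (hxC U hU) n
      obtain ⟨r', hr1, hr2⟩ := ltS_below s t q
      obtain ⟨k, hk, -⟩ := hf2 U hU
      obtain ⟨k, rfl⟩ := mem_omega_iff.1 (ZFSet.pair_mem_prod.1 (hf1 hk)).2
      have h1 : pair (nat k) (b (n, r')) ∈ S := (hS' _ _).2 ⟨mem_omega_iff.2 ⟨k, rfl⟩,
        (h.mem_A _).2 ⟨_, rfl⟩, fun U' _ hU'k => by
          rw [hf3 _ _ _ hU'k hk]
          exact ht r' hr1⟩
      obtain ⟨τ', h2, h3, h4⟩ := hq r r' hr hr2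
      have h5 := hE τ' h2 h3 k _ h1
      rw [h4] at h5
      exact ((hS' _ _).1 h5).2.2 U hU hk
    · refine ⟨{b i}, (hτ' _).2 ⟨hM.single_mem (h.b_mem i), fun z hz => ?_, fun h1 => ?_⟩,
        ZFSet.mem_singleton.2 rfl, fun U hU z hz => ?_⟩
      · rw [ZFSet.mem_singleton.1 hz]
        exact hbX i
      · exact absurd (ZFSet.mem_singleton.1 h1) (A_ne h i)
      · rw [ZFSet.mem_singleton.1 hz]
        exact hxC U hU

end

end Pool.Agent.R602.PP
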