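import Pool.Agent.R602.PP.Space

/-!
# The product is not a P-space
-/

set_option autoImplicit false

namespace Pool.Agent.R602.PP

open Pool.Agent.W868 Pool.Agent.R598.PM
open ZFSet (pair)

/-- The pairs in the block `n` are increasing. -/
def Inc (A K L z n : ZFSet.{0}) : Prop :=
  ∀ x ∈ A, ∀ y ∈ A, z = pair x y → pair n x ∈ K → pair n y ∈ K → pair x y ∈ L

section

variable {M : Set ZFSet.{0}} {b : ℕ × ℚ → ZFSet.{0}} {A K L : ZFSet.{0}} (h : IsPP M b A K L)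

include h

theorem inc_iff {n : ℕ} {i j : ℕ × ℚ} :
    Inc A K L (pair (b i) (b j)) (nat n) ↔ (i.1 = n → j.1 = n → i.2 < j.2) := by
  constructor
  · intro h1 hi hj
    have h2 := h1 _ ((h.mem_A _).2 ⟨i, rfl⟩) _ ((h.mem_A _).2 ⟨j, rfl⟩) rfl ((pair_K h).2 hi)
      ((pair_K h).2 hj)
    exact ltS_true.1 ((isL_true h _ _).1 h2).2
  · intro h1 x hx y hy he hxn hyn
    obtain ⟨i', rfl⟩ := (h.mem_A _).1 hx
    obtain ⟨j', rfl⟩ := (h.mem_A _).1 hy
    obtain ⟨h2, h3⟩ := ZFSet.pair_inj.1 he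
    have h4 := h.b_inj _ _ h2
    have h5 := h.b_inj _ _ h3
    subst h4
    subst h5
    have hi := (pair_K h).1 hxn
    have hj := (pair_K h).1 hyn
    exact (isL_true h _ _).2 ⟨hi.trans hj.symm, ltS_true.2 (h1 hi hj)⟩

theorem inc_left {n y : ZFSet.{0}} : Inc A K L (pair A y) n := by
  intro x hx y' _ he _ _
  obtain ⟨i, rfl⟩ := (h.mem_A _).1 hx
  exact absurd (ZFSet.pair_inj.1 he).1 (A_ne h i)

theorem inc_right {n x : ZFSet.{0}} : Inc A K L (pair x A) n := by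
  intro x' _ y hy he _ _
  obtain ⟨i, rfl⟩ := (h.mem_A _).1 hy
  exact absurd (ZFSet.pair_inj.1 he).2 (A_ne h i)

theorem not_PPP : ¬ PPP M := by
  intro hPPP
  have hM := h.zf
  have hB := hM.base
  have hA := h.A_mem
  have hK := h.K_mem
  have hL := h.L_mem
  have hom := hM.infinity
  have hX : insert A A ∈ M := hM.insert_mem hA hA
  obtain ⟨τ, hτ, hτ', hP1⟩ := exists_top h h.L_mem (isL_true h)
  obtain ⟨L', hL', hL2⟩ := exists_L_false h
  obtain ⟨σ, hσ, hσ', hP2⟩ := exists_top h hL' hL2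
  have hXX := hM.prod_mem hX hX
  obtain ⟨Pw, hPw, hPw'⟩ := hM.power _ hXX
  -- the product topology
  have hρ := hM.sep_mem (Q := fun W => ∀ x ∈ insert A A, ∀ y ∈ insert A A, pair x y ∈ W →
      ∃ U ∈ τ, ∃ V ∈ σ, x ∈ U ∧ y ∈ V ∧ ∀ u ∈ U, ∀ v ∈ V, pair u v ∈ W) (by
    (repeat' first
      | assumption
      | exact DfnF.proj _
      | exact DfnF.const (by assumption)
      | apply Dfn.not | apply Dfn.and | apply Dfn.or | apply Dfn.imp | apply Dfn.iff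
      | apply hB.bex | apply hB.ball | apply Dfn.ex | apply Dfn.all
      | apply Dfn.eq | apply Dfn.mem | apply hB.pair')) hPw
  set ρ := ZFSet.sep (fun W => ∀ x ∈ insert A A, ∀ y ∈ insert A A, pair x y ∈ W →
      ∃ U ∈ τ, ∃ V ∈ σ, x ∈ U ∧ y ∈ V ∧ ∀ u ∈ U, ∀ v ∈ V, pair u v ∈ W) Pw with hρdef
  have hρ' : IsProdTop M (insert A A) τ (insert A A) σ ρ := by
    intro W
    rw [hρdef, ZFSet.mem_sep, hPw']
    constructor
    · rintro ⟨⟨h1, h2⟩, h3⟩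
      refine ⟨h1, h2, fun x y hxy => ?_⟩
      obtain ⟨hx, hy⟩ := ZFSet.pair_mem_prod.1 (h2 hxy)
      obtain ⟨U, hU, V, hV, h4, h5, h6⟩ := h3 x hx y hy hxy
      refine ⟨U, hU, V, hV, h4, h5, fun z hz => ?_⟩
      obtain ⟨u, hu, v, hv, rfl⟩ := ZFSet.mem_prod.1 hz
      exact h6 u hu v hv
    · rintro ⟨h1, h2, h3⟩
      refine ⟨⟨h1, h2⟩, fun x hx y hy hxy => ?_⟩
      obtain ⟨U, hU, V, hV, h4, h5, h6⟩ := h3 x y hxy
      exact ⟨U, hU, V, hV, h4, h5, fun u hu v hv => h6 (ZFSet.pair_mem_prod.2 ⟨hu, hv⟩)⟩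
  have hprod := hPPP _ hX τ hτ _ hX σ hσ ρ hρ hP1 hP2 hρ'
  have hAX : A ∈ (insert A A : ZFSet.{0}) := ZFSet.mem_insert_iff.2 (Or.inl rfl)
  have hbX : ∀ i, b i ∈ (insert A A : ZFSet.{0}) := fun i =>
    ZFSet.mem_insert_iff.2 (Or.inr ((h.mem_A _).2 ⟨i, rfl⟩))
  have hXc : ∀ x ∈ (insert A A : ZFSet.{0}), x = A ∨ ∃ i, x = b i := by
    intro x hx
    rcases ZFSet.mem_insert_iff.1 hx with h1 | h1
    · exact Or.inl h1
    · exact Or.inr ((h.mem_A _).1 h1)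
  -- the family of the open sets `W n`
  have hC := hM.sep_mem (Q := fun W => ∃ n ∈ ZFSet.omega, ∀ z ∈ ZFSet.prod (insert A A) (insert A A),
      (z ∈ W ↔ Inc A K L z n)) (by
    unfold Inc
    (repeat' first
      | assumption
      | exact DfnF.proj _
      | exact DfnF.const (by assumption)
      | apply Dfn.iff | apply Dfn.not | apply Dfn.and | apply Dfn.or | apply Dfn.imp
      | apply hB.bex | apply hB.ball | apply Dfn.ex | apply Dfn.all
      | apply Dfn.eq | apply Dfn.mem | apply hB.pair')) hPw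
  set C := ZFSet.sep (fun W => ∃ n ∈ ZFSet.omega, ∀ z ∈ ZFSet.prod (insert A A) (insert A A),
      (z ∈ W ↔ Inc A K L z n)) Pw with hCdef
  have hW : ∀ n : ℕ, ∃ W ∈ M, W ⊆ ZFSet.prod (insert A A) (insert A A) ∧
      ∀ z ∈ ZFSet.prod (insert A A) (insert A A), (z ∈ W ↔ Inc A K L z (nat n)) := by
    intro n
    have hn : nat n ∈ M := hM.nat_mem n
    have h1 := hM.sep_mem (Q := fun z => Inc A K L z (nat n)) (by
      unfold Inc
      (repeat' first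
        | assumption
        | exact DfnF.proj _
        | exact DfnF.const (by assumption)
        | apply Dfn.iff | apply Dfn.not | apply Dfn.and | apply Dfn.or | apply Dfn.imp
        | apply hB.bex | apply hB.ball | apply Dfn.ex | apply Dfn.all
        | apply Dfn.eq | apply Dfn.mem | apply hB.pair')) hXX
    refine ⟨_, h1, fun z hz => (ZFSet.mem_sep.1 hz).1, fun z hz => ?_⟩
    rw [ZFSet.mem_sep]
    exact ⟨fun h2 => h2.2, fun h2 => ⟨hz, h2⟩⟩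
  choose W hWM hWX hWi using hW
  have hWC : ∀ n, W n ∈ C := fun n => by
    rw [hCdef, ZFSet.mem_sep, hPw']
    exact ⟨⟨hWM n, hWX n⟩, nat n, mem_omega_iff.2 ⟨n, rfl⟩, hWi n⟩
  have hCW : ∀ V ∈ C, ∃ n, V = W n := by
    intro V hV
    rw [hCdef, ZFSet.mem_sep, hPw'] at hV
    obtain ⟨⟨h1, h2⟩, n, hn, h3⟩ := hV
    obtain ⟨n, rfl⟩ := mem_omega_iff.1 hn
    refine ⟨n, ?_⟩
    ext z
    constructor
    · intro hz
      exact (hWi n z (h2 hz)).2 ((h3 z (h2 hz)).1 hz)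
    · intro hz
      exact (h3 z (hWX n hz)).2 ((hWi n z (hWX n hz)).1 hz)
  have hWb : ∀ n i j, pair (b i) (b j) ∈ W n ↔ (i.1 = n → j.1 = n → i.2 < j.2) := by
    intro n i j
    rw [hWi n _ (ZFSet.pair_mem_prod.2 ⟨hbX i, hbX j⟩), inc_iff h]
  have hWinj : ∀ n m, W n = W m → n = m := by
    intro n m hnm
    by_contra hne
    have h1 : pair (b (n, 0)) (b (n, 0)) ∈ W m := (hWb _ _ _).2 fun h2 => absurd h2 hne
    rw [← hnm, hWb] at h1
    exact lt_irrefl _ (h1 rfl rfl)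
  -- the family is countable
  have hcount : CountIn M C := by
    obtain ⟨f, hf, hf1, hf2⟩ := hM.rel_mem hC hom (Q := fun V n =>
        ∀ z ∈ ZFSet.prod (insert A A) (insert A A), (z ∈ V ↔ Inc A K L z n)) (by
      unfold Inc
      (repeat' first
        | assumption
        | exact DfnF.proj _
        | exact DfnF.const (by assumption)
        | apply Dfn.iff | apply Dfn.not | apply Dfn.and | apply Dfn.or | apply Dfn.imp
        | apply hB.bex | apply hB.ball | apply Dfn.ex | apply Dfn.all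
        | apply Dfn.eq | apply Dfn.mem | apply hB.pair'))
    have key : ∀ V n, pair V n ∈ f → ∃ k, n = nat k ∧ V = W k := by
      intro V n hVn
      obtain ⟨h1, h2, h3⟩ := (hf2 _ _).1 hVn
      obtain ⟨k, rfl⟩ := mem_omega_iff.1 h2
      refine ⟨k, rfl, ?_⟩
      have h4 := (hPw' _).1 (ZFSet.mem_sep.1 h1).1
      ext z
      constructor
      · intro hz
        exact (hWi k z (h4.2 hz)).2 ((h3 z (h4.2 hz)).1 hz)
      · intro hz
        exact (h3 z (hWX k hz)).2 ((hWi k z (hWX k hz)).1 hz)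
    refine ⟨f, hf, ⟨hf1, fun V hV => ?_⟩, fun V V' n h1 h2 => ?_⟩
    · obtain ⟨n, rfl⟩ := hCW V hV
      refine ⟨nat n, (hf2 _ _).2 ⟨hV, mem_omega_iff.2 ⟨n, rfl⟩, hWi n⟩, fun m hm => ?_⟩
      obtain ⟨k, rfl, hk⟩ := key _ _ hm
      rw [hWinj _ _ hk]
    · obtain ⟨k, rfl, rfl⟩ := key _ _ h1
      obtain ⟨k', hk', rfl⟩ := key _ _ h2
      rw [nat_injective hk']
  have hNb : ∀ (s : Bool) (L₀ : ZFSet.{0}), IsL b s L₀ → ∀ U, Nb A K L₀ U ↔
      (A ∈ U → ∀ n : ℕ, ∃ q : ℚ, ∀ r, ltS s r q → b (n, r) ∈ U) := by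
    intro s L₀ hs U
    refine imp_congr_right fun _ => ?_
    constructor
    · intro h1 n
      obtain ⟨q, hq, h2, h3⟩ := h1 (nat n) (mem_omega_iff.2 ⟨n, rfl⟩)
      obtain ⟨⟨m, q⟩, rfl⟩ := (h.mem_A _).1 hq
      have h4 : m = n := (pair_K h).1 h2
      subst h4
      exact ⟨q, fun r hr => h3 _ ((h.mem_A _).2 ⟨_, rfl⟩) ((hs _ _).2 ⟨rfl, hr⟩)⟩
    · intro h1 n hn
      obtain ⟨n, rfl⟩ := mem_omega_iff.1 hn
      obtain ⟨q, hq⟩ := h1 n
      refine ⟨b (n, q), (h.mem_A _).2 ⟨_, rfl⟩, (pair_K h).2 rfl, fun a ha haq => ?_⟩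
      obtain ⟨⟨m, r⟩, rfl⟩ := (h.mem_A _).1 ha
      obtain ⟨h2, h3⟩ := (hs _ _).1 haq
      have h4 : m = n := h2
      subst h4
      exact hq r h3
  -- basic open sets
  have hone : ∀ (s : Bool) (L₀ : ZFSet.{0}) i, IsL b s L₀ → ({b i} : ZFSet.{0}) ∈ M ∧
      {b i} ⊆ insert A A ∧ Nb A K L₀ {b i} := by
    intro s L₀ i _
    refine ⟨hM.single_mem (h.b_mem i), fun z hz => ?_, fun h1 => ?_⟩
    · rw [ZFSet.mem_singleton.1 hz]
      exact hbX i
    · exact absurd (ZFSet.mem_singleton.1 h1) (A_ne h i)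
  have hcone : ∀ (s : Bool) (L₀ : ZFSet.{0}) (i : ℕ × ℚ), L₀ ∈ M → IsL b s L₀ →
      ∃ U ∈ M, U ⊆ insert A A ∧ Nb A K L₀ U ∧ A ∈ U ∧
        ∀ j : ℕ × ℚ, b j ∈ U ↔ (j.1 = i.1 → ltS s j.2 i.2) := by
    intro s L₀ i hL₀ hs
    have hi := h.b_mem i
    have hn : nat i.1 ∈ M := hM.nat_mem _
    have h1 := hM.sep_mem (Q := fun z => pair (nat i.1) z ∈ K → pair z (b i) ∈ L₀) (by
      (repeat' first
        | assumption
        | exact DfnF.proj _
        | exact DfnF.const (by assumption)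
        | apply Dfn.imp | apply Dfn.mem | apply hB.pair')) hX
    have h2 : ∀ j : ℕ × ℚ, b j ∈ ZFSet.sep (fun z => pair (nat i.1) z ∈ K → pair z (b i) ∈ L₀)
        (insert A A) ↔ (j.1 = i.1 → ltS s j.2 i.2) := by
      intro j
      rw [ZFSet.mem_sep, pair_K h, hs]
      constructor
      · rintro ⟨-, h3⟩ h4
        exact (h3 h4).2
      · intro h3
        exact ⟨hbX j, fun h4 => ⟨h4, h3 h4⟩⟩
    refine ⟨_, h1, fun z hz => (ZFSet.mem_sep.1 hz).1, (hNb s L₀ hs _).2 fun _ n => ?_,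
      ZFSet.mem_sep.2 ⟨hAX, fun h3 => absurd h3 (not_K_A h _)⟩, h2⟩
    exact ⟨i.2, fun r hr => (h2 _).2 fun _ => hr⟩
  -- the sets `W n` are open
  have hCρ : C ⊆ ρ := by
    intro V hV
    obtain ⟨n, rfl⟩ := hCW V hV
    refine (hρ' _).2 ⟨hWM n, hWX n, fun x y hxy => ?_⟩
    obtain ⟨hx, hy⟩ := ZFSet.pair_mem_prod.1 (hWX n hxy)
    have hXτ : insert A A ∈ τ := (hτ' _).2 ⟨hX, fun z hz => hz, (hNb true L (isL_true h) _).2
      fun _ n => ⟨0, fun r _ => hbX _⟩⟩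
    have hXσ : insert A A ∈ σ := (hσ' _).2 ⟨hX, fun z hz => hz, (hNb false L' hL2 _).2
      fun _ n => ⟨0, fun r _ => hbX _⟩⟩
    have hsub : ∀ U V : ZFSet.{0}, U ⊆ insert A A → V ⊆ insert A A →
        (∀ i j : ℕ × ℚ, b i ∈ U → b j ∈ V → i.1 = n → j.1 = n → i.2 < j.2) →
          ZFSet.prod U V ⊆ W n := by
      intro U V hU hV h1 z hz
      obtain ⟨u, hu, v, hv, rfl⟩ := ZFSet.mem_prod.1 hz
      rw [hWi n _ (ZFSet.pair_mem_prod.2 ⟨hU hu, hV hv⟩)]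
      rcases hXc u (hU hu) with rfl | ⟨i, rfl⟩
      · exact inc_left h
      · rcases hXc v (hV hv) with rfl | ⟨j, rfl⟩
        · exact inc_right h
        · exact (inc_iff h).2 (h1 i j hu hv)
    rcases hXc x hx with rfl | ⟨i, rfl⟩
    · rcases hXc y hy with rfl | ⟨j, rfl⟩
      · obtain ⟨U, hU1, hU2, hU3, hU4, hU5⟩ := hcone true L (n, 0) hL (isL_true h)
        obtain ⟨V, hV1, hV2, hV3, hV4, hV5⟩ := hcone false L' (n, 0) hL' hL2
        refine ⟨U, (hτ' U).2 ⟨hU1, hU2, hU3⟩, V, (hσ' V).2 ⟨hV1, hV2, hV3⟩, hU4, hV4,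
          hsub U V hU2 hV2 fun i j hi hj hin hjn => ?_⟩
        exact (ltS_true.1 ((hU5 i).1 hi hin)).trans (ltS_false.1 ((hV5 j).1 hj hjn))
      · by_cases hjn : j.1 = n
        · obtain ⟨U, hU1, hU2, hU3, hU4, hU5⟩ := hcone true L j hL (isL_true h)
          obtain ⟨hV1, hV2, hV3⟩ := hone false L' j hL2
          refine ⟨U, (hτ' U).2 ⟨hU1, hU2, hU3⟩, {b j}, (hσ' _).2 ⟨hV1, hV2, hV3⟩, hU4,
            ZFSet.mem_singleton.2 rfl, hsub U _ hU2 hV2 fun i j' hi hj hin hjn' => ?_⟩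
          have h1 := h.b_inj _ _ (ZFSet.mem_singleton.1 hj)
          subst h1
          exact ltS_true.1 ((hU5 i).1 hi (hin.trans hjn.symm))
        · obtain ⟨hV1, hV2, hV3⟩ := hone false L' j hL2
          refine ⟨_, hXτ, {b j}, (hσ' _).2 ⟨hV1, hV2, hV3⟩, hAX,
            ZFSet.mem_singleton.2 rfl, hsub _ _ (fun z hz => hz) hV2 fun i j' hi hj hin hjn' => ?_⟩
          have h1 := h.b_inj _ _ (ZFSet.mem_singleton.1 hj)
          subst h1
          exact absurd hjn' hjn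
    · rcases hXc y hy with rfl | ⟨j, rfl⟩
      · by_cases hin : i.1 = n
        · obtain ⟨V, hV1, hV2, hV3, hV4, hV5⟩ := hcone false L' i hL' hL2
          obtain ⟨hU1, hU2, hU3⟩ := hone true L i (isL_true h)
          refine ⟨{b i}, (hτ' _).2 ⟨hU1, hU2, hU3⟩, V, (hσ' V).2 ⟨hV1, hV2, hV3⟩,
            ZFSet.mem_singleton.2 rfl, hV4, hsub _ V hU2 hV2 fun i' j hi hj hin' hjn => ?_⟩
          have h1 := h.b_inj _ _ (ZFSet.mem_singleton.1 hi)
          subst h1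
          exact ltS_false.1 ((hV5 j).1 hj (hjn.trans hin.symm))
        · obtain ⟨hU1, hU2, hU3⟩ := hone true L i (isL_true h)
          refine ⟨{b i}, (hτ' _).2 ⟨hU1, hU2, hU3⟩, _, hXσ, ZFSet.mem_singleton.2 rfl, hAX,
            hsub _ _ hU2 (fun z hz => hz) fun i' j' hi hj hin' hjn' => ?_⟩
          have h1 := h.b_inj _ _ (ZFSet.mem_singleton.1 hi)
          subst h1
          exact absurd hin' hin
      · obtain ⟨hU1, hU2, hU3⟩ := hone true L i (isL_true h)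
        obtain ⟨hV1, hV2, hV3⟩ := hone false L' j hL2
        refine ⟨{b i}, (hτ' _).2 ⟨hU1, hU2, hU3⟩, {b j}, (hσ' _).2 ⟨hV1, hV2, hV3⟩,
          ZFSet.mem_singleton.2 rfl, ZFSet.mem_singleton.2 rfl,
          hsub _ _ hU2 hV2 fun i' j' hi hj => ?_⟩
        have h1 := h.b_inj _ _ (ZFSet.mem_singleton.1 hi)
        have h2 := h.b_inj _ _ (ZFSet.mem_singleton.1 hj)
        subst h1
        subst h2
        exact (hWb n _ _).1 hxy
  have hAA : pair A A ∈ ZFSet.prod (insert A A) (insert A A) := ZFSet.pair_mem_prod.2 ⟨hAX, hAX⟩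
  have hCne : C ≠ ∅ := fun h1 => absurd (h1 ▸ hWC 0) (ZFSet.notMem_empty _)
  obtain ⟨V', hV', hAV', hsubV⟩ := hprod.2 C hC hCne hCρ hcount (pair A A) hAA fun V hV => by
    obtain ⟨n, rfl⟩ := hCW V hV
    exact (hWi n _ hAA).2 (inc_left h)
  obtain ⟨-, -, h1⟩ := (hρ' V').1 hV'
  obtain ⟨U, hU, V, hV, hAU, hAV, hUV⟩ := h1 A A hAV'
  obtain ⟨hUM, -, hUn⟩ := (hτ' U).1 hU
  obtain ⟨hVM, -, hVn⟩ := (hσ' V).1 hV
  obtain ⟨E, hE⟩ := h.supp U hUM
  obtain ⟨E', hE'⟩ := h.supp V hVM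
  obtain ⟨n, hn⟩ := ((E.finite_toSet.image Prod.fst).union
    (E'.finite_toSet.image Prod.fst)).exists_notMem
  have hn1 : ∀ i ∈ E, i.1 ≠ n := fun i hi hin => hn (Or.inl ⟨i, hi, hin⟩)
  have hn2 : ∀ i ∈ E', i.1 ≠ n := fun i hi hin => hn (Or.inr ⟨i, hi, hin⟩)
  obtain ⟨q, hq⟩ := (hNb true L (isL_true h) U).1 hUn hAU n
  obtain ⟨q', hq'⟩ := (hNb false L' hL2 V).1 hVn hAV n
  have hb1 : b (n, 0) ∈ U := by
    obtain ⟨r, hr, -⟩ := ltS_below true q q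
    obtain ⟨τ', h2, h3, h4⟩ := exists_shift E n hn1 0 r
    have h5 := hE τ' h2 h3 _ (hq r hr)
    rwa [h4] at h5
  have hb2 : b (n, 0) ∈ V := by
    obtain ⟨r, hr, -⟩ := ltS_below false q' q'
    obtain ⟨τ', h2, h3, h4⟩ := exists_shift E' n hn2 0 r
    have h5 := hE' τ' h2 h3 _ (hq' r hr)
    rwa [h4] at h5
  have h2 := hsubV (W n) (hWC n) (hUV (ZFSet.pair_mem_prod.2 ⟨hb1, hb2⟩))
  exact lt_irrefl _ ((hWb n _ _).1 h2 rfl rfl)

end

end Pool.Agent.R602.PP
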