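import Pool.Agent.R598.PM.Base

/-!
# The model with a sequence of dense linear orders
-/

set_option autoImplicit false

namespace Pool.Agent.R602.PP

open Pool.Agent.W868 Pool.Agent.W868.PName Pool.Agent.R598.SY Pool.Agent.R598.PM
open ZFSet (pair)

theorem ais (τ : Equiv.Perm (ℕ × ℚ)) (x : ℕ × ℚ) : τ (τ⁻¹ x) = x := Equiv.apply_symm_apply τ x

/-- The permutations that preserve the blocks and their orders. -/
def Tg : Subgroup (Equiv.Perm (ℕ × ℚ)) where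
  carrier := {τ | (∀ x, (τ x).1 = x.1) ∧ ∀ x y, x.1 = y.1 → x.2 < y.2 → (τ x).2 < (τ y).2}
  mul_mem' := by
    rintro τ τ' ⟨h1, h2⟩ ⟨h1', h2'⟩
    refine ⟨fun x => ?_, fun x y hxy hlt => ?_⟩
    · change (τ (τ' x)).1 = x.1
      rw [h1, h1']
    · exact h2 (τ' x) (τ' y) (by rw [h1', h1', hxy]) (h2' x y hxy hlt)
  one_mem' := ⟨fun _ => rfl, fun _ _ _ h => h⟩
  inv_mem' := by
    rintro τ ⟨h1, h2⟩
    have h3 : ∀ x, (τ⁻¹ x).1 = x.1 := by
      intro x
      have h4 := h1 (τ⁻¹ x)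
      rw [ais] at h4
      exact h4.symm
    refine ⟨h3, fun x y hxy hlt => ?_⟩
    by_contra hc
    have hb : (τ⁻¹ x).1 = (τ⁻¹ y).1 := by rw [h3, h3, hxy]
    rcases (not_lt.1 hc).eq_or_lt with h4 | h4
    · have h5 : τ⁻¹ x = τ⁻¹ y := Prod.ext hb h4.symm
      have h6 : x = y := τ⁻¹.injective h5
      rw [h6] at hlt
      exact lt_irrefl _ hlt
    · have h5 := h2 _ _ hb.symm h4
      rw [ais, ais] at h5
      exact lt_asymm hlt h5

/-- The data of the model. -/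
def DD : PD (ℕ × ℚ) where
  T := Tg
  Φ := {⊤}
  ne := ⟨⊤, rfl⟩
  conj := by
    rintro _ rfl τ _
    exact ⟨∅, ⊤, rfl, fun _ _ _ _ => Subgroup.mem_top _⟩
  dir := by
    rintro _ rfl _ rfl
    exact ⟨⊤, rfl, le_rfl, le_rfl⟩

/-! ### Names for families -/

/-- The name for a family of names. -/
def famN {ι : Type} (f : ι → PName (Cd (ℕ × ℚ))) : PName (Cd (ℕ × ℚ)) :=
  PName.mk ι f (fun _ => ⊤)

theorem el_famN {ι : Type} {f : ι → PName (Cd (ℕ × ℚ))} {z : PName (Cd (ℕ × ℚ))}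
    {c : Cd (ℕ × ℚ)} : El (famN f) z c ↔ ∃ i, z = f i ∧ c = ⊤ := by
  rw [famN, el_mk]
  constructor
  · rintro ⟨n, rfl, rfl⟩
    exact ⟨n, rfl, rfl⟩
  · rintro ⟨n, rfl, rfl⟩
    exact ⟨n, rfl, rfl⟩

/-- A family that is mapped onto itself is symmetric. -/
theorem hs_famN {ι : Type} {f : ι → PName (Cd (ℕ × ℚ))} (hf : ∀ i, (sys DD).HS (f i))
    (h : ∀ (ρ : (sys DD).G) (τ : Equiv.Perm (ℕ × ℚ)), τ ∈ Tg → Bl ρ.1 τ → ∃ e : ι → ι,
      Function.Surjective e ∧ ∀ i p, Feq (act ((sys DD).ac ρ) (f i)) (f (e i)) p) :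
    (sys DD).HS (famN f) := by
  refine (sys DD).hs_iff.2 ⟨⟨_, ⟨∅, ⊤, rfl, rfl⟩, fun ρ _ p => ?_⟩, fun z c hz => ?_⟩
  · obtain ⟨τ, hτ, hρ⟩ := ρ.2
    obtain ⟨e, he, he'⟩ := h ρ τ hτ hρ
    rw [feq_iff']
    constructor
    · intro a c ha q hq hqc
      obtain ⟨z, d, hz, rfl, rfl⟩ := el_act.1 ha
      obtain ⟨i, rfl, rfl⟩ := el_famN.1 hz
      exact ⟨q, le_rfl, _, ⊤, el_famN.2 ⟨e i, rfl, rfl⟩, le_top, he' i q⟩
    · intro a c ha q hq hqc
      obtain ⟨j, rfl, rfl⟩ := el_famN.1 ha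
      obtain ⟨i, rfl⟩ := he j
      exact ⟨q, le_rfl, _, ⊤, el_act.2 ⟨_, ⊤, el_famN.2 ⟨i, rfl, rfl⟩, rfl,
        ((sys DD).top ρ).symm⟩, le_top, he' i q⟩
  · obtain ⟨n, rfl, rfl⟩ := el_famN.1 hz
    exact hf n

/-- The name for the set of the atoms. -/
noncomputable def aN : PName (Cd (ℕ × ℚ)) := famN fun i => bN i

/-- The name for the block relation. -/
noncomputable def kN : PName (Cd (ℕ × ℚ)) := famN fun i => opN (check (nat i.1)) (bN i)

/-- The name for the order relation. -/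
noncomputable def lN : PName (Cd (ℕ × ℚ)) :=
  famN fun t : {t : (ℕ × ℚ) × (ℕ × ℚ) // t.1.1 = t.2.1 ∧ t.1.2 < t.2.2} =>
    opN (bN t.1.1) (bN t.1.2)

theorem hs_aN : (sys DD).HS aN :=
  hs_famN (fun i => hs_bN i) fun _ τ _ hρ => ⟨τ, τ.surjective, fun i p => act_bN hρ i p⟩

theorem hs_kN : (sys DD).HS kN := by
  refine hs_famN (fun i => (sys DD).hs_opN ((sys DD).hs_check _) (hs_bN i))
    fun ρ τ hτ hρ => ⟨τ, τ.surjective, fun i p => ?_⟩
  rw [act_opN ((sys DD).top ρ), act_check ((sys DD).top ρ), hτ.1 i]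
  exact feq_opN (Feq.refl _ _) (act_bN hρ i p)

theorem hs_lN : (sys DD).HS lN := by
  refine hs_famN (fun i => (sys DD).hs_opN (hs_bN _) (hs_bN _)) fun ρ τ hτ hρ => ?_
  refine ⟨fun t => ⟨(τ t.1.1, τ t.1.2), ?_, ?_⟩, ?_, fun t p => ?_⟩
  · change (τ t.1.1).1 = (τ t.1.2).1
    rw [hτ.1, hτ.1]
    exact t.2.1
  · exact hτ.2 _ _ t.2.1 t.2.2
  · rintro ⟨⟨a, b⟩, h1, h2⟩
    have hi := Tg.inv_mem hτ
    refine ⟨⟨(τ⁻¹ a, τ⁻¹ b), ?_, hi.2 _ _ h1 h2⟩, ?_⟩
    · change (τ⁻¹ a).1 = (τ⁻¹ b).1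
      rw [hi.1, hi.1]
      exact h1
    · refine Subtype.ext (Prod.ext ?_ ?_)
      · exact ais τ a
      · exact ais τ b
  · rw [act_opN ((sys DD).top ρ)]
    exact feq_opN (act_bN hρ _ p) (act_bN hρ _ p)

/-! ### The model -/

theorem val_famN {π : Pkg (Cd (ℕ × ℚ))} {ι : Type} {f : ι → PName (Cd (ℕ × ℚ))}
    (hf : ∀ i, f i ∈ π.N) {z : ZFSet.{0}} : z ∈ π.val (famN f) ↔ ∃ i, z = π.val (f i) := by
  rw [π.mem_val]
  constructor
  · rintro ⟨y, hy, c, hc, -, rfl⟩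
    obtain ⟨i, rfl, -⟩ := el_famN.1 hc
    exact ⟨i, rfl⟩
  · rintro ⟨i, rfl⟩
    exact ⟨f i, hf i, ⊤, el_famN.2 ⟨i, rfl, rfl⟩, ⟨0, le_top⟩, rfl⟩

/-- The properties of the model `M` with the atoms `b n q`. -/
structure IsPP (M : Set ZFSet.{0}) (b : ℕ × ℚ → ZFSet.{0}) (A K L : ZFSet.{0}) : Prop where
  zf : IsZF M
  b_mem : ∀ i, b i ∈ M
  b_inj : ∀ i j, b i = b j → i = j
  A_mem : A ∈ M
  mem_A : ∀ z, z ∈ A ↔ ∃ i, z = b i
  K_mem : K ∈ M
  mem_K : ∀ z, z ∈ K ↔ ∃ i : ℕ × ℚ, z = pair (nat i.1) (b i)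
  L_mem : L ∈ M
  mem_L : ∀ z, z ∈ L ↔ ∃ i j : ℕ × ℚ, i.1 = j.1 ∧ i.2 < j.2 ∧ z = pair (b i) (b j)
  supp : ∀ S ∈ M, ∃ E : Finset (ℕ × ℚ), ∀ τ ∈ Tg, (∀ i ∈ E, τ i = i) → ∀ i, b i ∈ S → b (τ i) ∈ S
  supp' : ∀ S ∈ M, ∃ E : Finset (ℕ × ℚ), ∀ τ ∈ Tg, (∀ i ∈ E, τ i = i) → ∀ n i,
    pair (nat n) (b i) ∈ S → pair (nat n) (b (τ i)) ∈ S

theorem exists_supp {π : Pkg (Cd (ℕ × ℚ))} {x : ZFSet.{0}} (hx : x ∈ (sys DD).Ms π) :
    ∃ t ∈ π.N, π.val t = x ∧ ∃ E, (sys DD).Fix (fixE DD E ⊤) t := by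
  obtain ⟨t, ⟨ht, hs⟩, rfl⟩ := hx
  obtain ⟨_, ⟨E, H, hH, rfl⟩, hE⟩ := hs.sym
  have hH' : H = ⊤ := hH
  subst hH'
  exact ⟨t, ht, rfl, E, hE⟩

theorem exists_model : ∃ M : Set ZFSet.{0}, M.Countable ∧ ∃ b A K L, IsPP M b A K L := by
  classical
  obtain ⟨π, hX, -, hcl⟩ := exists_pkg (sys DD).rules (Set.Finite.countable (by
    unfold Sys.rules
    exact Set.toFinite _)) ({aN, kN, lN} ∪ Set.range bN)
    ((Set.toFinite _).countable.union (Set.countable_range _)) ⊤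
  have hCld : (sys DD).Cld π := fun ρ hρ => hcl ρ hρ
  have hM : IsZF ((sys DD).Ms π) := T_ZF.main T_TRU.main T_SEP.main _ _ π hCld
  have hb : ∀ i, bN i ∈ π.N := fun i => hX (Or.inr ⟨i, rfl⟩)
  have ha : aN ∈ π.N := hX (Or.inl (Or.inl rfl))
  have hk : kN ∈ π.N := hX (Or.inl (Or.inr (Or.inl rfl)))
  have hl : lN ∈ π.N := hX (Or.inl (Or.inr (Or.inr rfl)))
  have hc : ∀ n, check (nat n) ∈ π.N := fun n => π.nat_Z n
  have hc' : ∀ n, π.val (check (nat n)) = nat n := fun n => π.hat_nat n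
  refine ⟨(sys DD).Ms π, (π.cnt.mono fun _ h => h.1).image _, fun i => π.val (bN i), π.val aN,
    π.val kN, π.val lN, hM, fun i => ⟨_, ⟨hb i, hs_bN i⟩, rfl⟩, fun i j hij => ?_,
    ⟨_, ⟨ha, hs_aN⟩, rfl⟩, fun z => val_famN hb, ⟨_, ⟨hk, hs_kN⟩, rfl⟩, fun z => ?_,
    ⟨_, ⟨hl, hs_lN⟩, rfl⟩, fun z => ?_, fun S hS => ?_, fun S hS => ?_⟩
  · by_contra hne
    obtain ⟨n, hn⟩ := (π.val_eq_iff (hb i) (hb j)).1 hij
    exact not_feq_bN hne _ hn
  · unfold kN
    rw [val_famN fun i => π.opN_mem (hc _) (hb i)]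
    refine exists_congr fun i => ?_
    rw [π.val_opN (hc _) (hb i), hc']
  · unfold lN
    rw [val_famN fun t => π.opN_mem (hb _) (hb _)]
    constructor
    · rintro ⟨⟨⟨i, j⟩, h1, h2⟩, rfl⟩
      exact ⟨i, j, h1, h2, π.val_opN (hb _) (hb _)⟩
    · rintro ⟨i, j, h1, h2, rfl⟩
      exact ⟨⟨⟨i, j⟩, h1, h2⟩, (π.val_opN (hb _) (hb _)).symm⟩
  · obtain ⟨t, ht, rfl, E, hE⟩ := exists_supp hS
    refine ⟨E.image Prod.fst, fun τ hτ hfix i hi => ?_⟩
    exact move ht (hb _) (hb _) hE hτ (Subgroup.mem_top _)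
      (fun a ha => hfix _ (Finset.mem_image_of_mem _ ha)) (fun ρ hρ p => act_bN hρ i p) hi
  · obtain ⟨t, ht, rfl, E, hE⟩ := exists_supp hS
    refine ⟨E.image Prod.fst, fun τ hτ hfix n i hi => ?_⟩
    rw [← hc' n, ← π.val_opN (hc n) (hb _)] at hi ⊢
    refine move ht (π.opN_mem (hc n) (hb _)) (π.opN_mem (hc n) (hb _)) hE hτ (Subgroup.mem_top _)
      (fun a ha => hfix _ (Finset.mem_image_of_mem _ ha)) (fun ρ hρ p => ?_) hi
    rw [act_opN ((sys DD).top ρ), act_check ((sys DD).top ρ)]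
    exact feq_opN (Feq.refl _ _) (act_bN hρ i p)

/-! ### Permutations -/

open Classical in
/-- The permutation that acts on the block `n` as `e`. -/
noncomputable def onB (n : ℕ) (e : Equiv.Perm ℚ) : Equiv.Perm (ℕ × ℚ) where
  toFun x := if x.1 = n then (x.1, e x.2) else x
  invFun x := if x.1 = n then (x.1, e.symm x.2) else x
  left_inv := by
    rintro ⟨m, q⟩
    by_cases h : m = n <;> simp [h]
  right_inv := by
    rintro ⟨m, q⟩
    by_cases h : m = n <;> simp [h]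

theorem onB_same (n : ℕ) (e : Equiv.Perm ℚ) (q : ℚ) : onB n e (n, q) = (n, e q) := by
  simp [onB]

theorem onB_ne {n m : ℕ} (h : m ≠ n) (e : Equiv.Perm ℚ) (q : ℚ) : onB n e (m, q) = (m, q) := by
  simp [onB, h]

theorem onB_mem (n : ℕ) {e : Equiv.Perm ℚ} (he : ∀ x y, x < y → e x < e y) : onB n e ∈ Tg := by
  refine ⟨?_, ?_⟩
  · rintro ⟨m, q⟩
    by_cases h : m = n
    · subst h
      rw [onB_same]
    · rw [onB_ne h]
  · rintro ⟨m, q⟩ ⟨m', q'⟩ h1 h2
    simp only at h1 h2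
    subst h1
    by_cases h : m = n
    · subst h
      rw [onB_same, onB_same]
      exact he _ _ h2
    · rw [onB_ne h, onB_ne h]
      exact h2

/-- The contraction of the points below `q`. -/
def lowE (q c : ℚ) (hc : 0 < c) : Equiv.Perm ℚ where
  toFun x := if x < q then q + c * (x - q) else x
  invFun x := if x < q then q + c⁻¹ * (x - q) else x
  left_inv := by
    intro x
    by_cases h : x < q
    · have h1 : q + c * (x - q) < q := by
        have := mul_pos hc (sub_pos.2 h)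
        linarith
      simp only [h, if_true, h1]
      field_simp
      ring
    · simp [h]
  right_inv := by
    intro x
    by_cases h : x < q
    · have h1 : q + c⁻¹ * (x - q) < q := by
        have := mul_pos (inv_pos.2 hc) (sub_pos.2 h)
        linarith
      simp only [h, if_true, h1]
      field_simp
      ring
    · simp [h]

theorem lowE_low {q c x : ℚ} (hc : 0 < c) (h : x < q) : lowE q c hc x = q + c * (x - q) := by
  simp [lowE, h]

theorem lowE_high {q c x : ℚ} (hc : 0 < c) (h : q ≤ x) : lowE q c hc x = x := by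
  simp [lowE, not_lt.2 h]

theorem lowE_mono {q c : ℚ} (hc : 0 < c) (x y : ℚ) (h : x < y) : lowE q c hc x < lowE q c hc y := by
  rcases lt_or_ge y q with h1 | h1
  · rw [lowE_low hc h1, lowE_low hc (h.trans h1)]
    have := mul_pos hc (sub_pos.2 h)
    linarith
  · rw [lowE_high hc h1]
    rcases lt_or_ge x q with h2 | h2
    · rw [lowE_low hc h2]
      have := mul_pos hc (sub_pos.2 h2)
      linarith
    · rw [lowE_high hc h2]
      exact h

/-- The contraction of the points above `q`. -/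
def highE (q c : ℚ) (hc : 0 < c) : Equiv.Perm ℚ where
  toFun x := if q < x then q + c * (x - q) else x
  invFun x := if q < x then q + c⁻¹ * (x - q) else x
  left_inv := by
    intro x
    by_cases h : q < x
    · have h1 : q < q + c * (x - q) := by
        have := mul_pos hc (sub_pos.2 h)
        linarith
      simp only [h, if_true, h1]
      field_simp
      ring
    · simp [h]
  right_inv := by
    intro x
    by_cases h : q < x
    · have h1 : q < q + c⁻¹ * (x - q) := by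
        have := mul_pos (inv_pos.2 hc) (sub_pos.2 h)
        linarith
      simp only [h, if_true, h1]
      field_simp
      ring
    · simp [h]

theorem highE_high {q c x : ℚ} (hc : 0 < c) (h : q < x) : highE q c hc x = q + c * (x - q) := by
  simp [highE, h]

theorem highE_low {q c x : ℚ} (hc : 0 < c) (h : x ≤ q) : highE q c hc x = x := by
  simp [highE, not_lt.2 h]

theorem highE_mono {q c : ℚ} (hc : 0 < c) (x y : ℚ) (h : x < y) :
    highE q c hc x < highE q c hc y := by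
  rcases lt_or_ge q x with h1 | h1
  · rw [highE_high hc h1, highE_high hc (h1.trans h)]
    have := mul_pos hc (sub_pos.2 h)
    linarith
  · rw [highE_low hc h1]
    rcases lt_or_ge q y with h2 | h2
    · rw [highE_high hc h2]
      have := mul_pos hc (sub_pos.2 h2)
      linarith
    · rw [highE_low hc h2]
      exact h

end Pool.Agent.R602.PP
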